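import Pool.Agent.SGL.StmtsS

/-!
# SGL, row LCT: a chain of a relation with unique successors inside another one is contiguous
-/

set_option autoImplicit false

namespace Pool.Agent.SGL.H60

open Pool.Agent.SGL

/-- **LCT** -/
theorem lct : LctStmt := by
  intro V G huniq p Y Y₀ hY hp hY₀ hsub
  have key : ∀ (Y' : List V) (y : V) (R : List V), (y :: Y').IsChain G →
      (∀ z ∈ y :: Y', z ∈ Y) → (y :: (R ++ [p])).IsChain G → ∃ B, y :: R = (y :: Y') ++ B := by
    intro Y'
    induction Y' with
    | nil =>
      intro y R _ _ _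
      exact ⟨R, rfl⟩
    | cons z Y'' ih =>
      intro y R h1 h2 h3
      have h1' := List.isChain_cons_cons.1 h1
      cases R with
      | nil =>
        have h4 : G y p := (List.isChain_cons_cons.1 h3).1
        have h5 := huniq y z p h1'.1 h4
        have h6 : z ∈ Y := h2 z (List.mem_cons_of_mem _ List.mem_cons_self)
        rw [h5] at h6
        exact absurd h6 hp
      | cons r R' =>
        have h3' := List.isChain_cons_cons.1 h3
        have h5 := huniq y z r h1'.1 h3'.1
        subst h5
        obtain ⟨B, hB⟩ := ih z R' h1'.2 (fun w hw => h2 w (List.mem_cons_of_mem _ hw)) h3'.2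
        exact ⟨B, congrArg (List.cons y) hB⟩
  cases Y₀ with
  | nil => exact ⟨Y, [], by simp⟩
  | cons y Y' =>
    obtain ⟨A, R, hAR⟩ := List.append_of_mem (hsub y List.mem_cons_self)
    have h3 : (y :: (R ++ [p])).IsChain G := by
      have h4 : (A ++ (y :: (R ++ [p]))).IsChain G := by
        have h5 := hY
        rw [hAR] at h5
        simpa using h5
      exact (List.isChain_append.1 h4).2.1
    obtain ⟨B, hB⟩ := key Y' y R hY₀ hsub h3
    exact ⟨A, B, by rw [hAR, hB]⟩

end Pool.Agent.SGL.H60
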